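import Mathlib

/-!
# A planar linear hypergraph without a straight-line representation

We exhibit a planar linear hypergraph with 10 vertices and 16 edges (4 edges of size 3 and 12 edges
of size 2) that admits no straight-line representation in the plane.

The hypergraph: take the octahedron, colour its faces black and white properly, let the four black
faces be edges of size three, and put one new vertex (a hub) in every white face, joined by edges
of size two to the three vertices of that face.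
-/

namespace Pool.Agent.Results.MP_3387b7_co.Counterexample

open Set

/-- The real plane. -/
abbrev Plane : Type := ℝ × ℝ

/-- A hypergraph on the vertex type `V`, given by a family (indexed by `ι`) of nonempty finite
subsets of `V`, the edges. -/
structure HGraph (V ι : Type) where
  /-- the family of edges -/
  edge : ι → Finset V
  /-- every edge is nonempty -/
  edge_nonempty : ∀ i, (edge i).Nonempty

/-- `A` is a simple arc in the plane with end points `x` and `y`: the image of an injective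
continuous map from the closed unit interval sending `0` to `x` and `1` to `y`. -/
def IsArc (A : Set Plane) (x y : Plane) : Prop :=
  ∃ f : ℝ → Plane, ContinuousOn f (Icc 0 1) ∧ InjOn f (Icc 0 1) ∧ f 0 = x ∧ f 1 = y ∧
    f '' Icc 0 1 = A

/-- A (simple) graph is planar if it can be drawn in the plane: distinct vertices are represented
by distinct points, every edge by a simple arc joining its two ends and containing no other
vertex point, and the arcs of two different edges have no point in common except for the point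
of a common end. -/
def IsPlanarGraph {W : Type} (G : SimpleGraph W) : Prop :=
  ∃ (pos : W → Plane) (arc : Sym2 W → Set Plane),
    Function.Injective pos ∧
    (∀ u v, G.Adj u v → IsArc (arc s(u, v)) (pos u) (pos v)) ∧
    (∀ e ∈ G.edgeSet, ∀ w, w ∉ e → pos w ∉ arc e) ∧
    (∀ e ∈ G.edgeSet, ∀ f ∈ G.edgeSet, e ≠ f → ∀ x, x ∈ arc e → x ∈ arc f →
      ∃ w, w ∈ e ∧ w ∈ f ∧ x = pos w)

namespace HGraph

variable {V ι : Type}

/-- The hypergraph is linear: any two distinct edges have at most one vertex in common. -/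
def IsLinear (H : HGraph V ι) : Prop :=
  ∀ i j, i ≠ j → ∀ u v, u ∈ H.edge i → u ∈ H.edge j → v ∈ H.edge i → v ∈ H.edge j → u = v

/-- The incidence graph of a hypergraph: the bipartite graph on `V ⊕ ι` in which the vertex `v` is
joined to the edge `i` exactly when `v ∈ H.edge i`. -/
def incidenceGraph (H : HGraph V ι) : SimpleGraph (V ⊕ ι) where
  Adj a b := (∃ v i, v ∈ H.edge i ∧ a = Sum.inl v ∧ b = Sum.inr i) ∨
    (∃ v i, v ∈ H.edge i ∧ a = Sum.inr i ∧ b = Sum.inl v)
  symm := by
    constructor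
    rintro a b (⟨v, i, h, ha, hb⟩ | ⟨v, i, h, ha, hb⟩)
    · exact Or.inr ⟨v, i, h, hb, ha⟩
    · exact Or.inl ⟨v, i, h, hb, ha⟩
  loopless := by
    constructor
    rintro a (⟨v, i, h, ha, hb⟩ | ⟨v, i, h, ha, hb⟩)
    · rw [ha] at hb; exact absurd hb (by simp)
    · rw [ha] at hb; exact absurd hb (by simp)

/-- The hypergraph is planar: its incidence graph is a planar graph. -/
def IsPlanar (H : HGraph V ι) : Prop := IsPlanarGraph H.incidenceGraph

/-- The hypergraph has a straight-line representation: there are pairwise distinct points `p v`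
and closed segments `s i` of positive length such that distinct segments have at most one point in
common, such a common point is the point of some vertex, and `p v ∈ s i` iff `v ∈ H.edge i`. -/
def HasStraightLineRepresentation (H : HGraph V ι) : Prop :=
  ∃ (p : V → Plane) (s : ι → Set Plane),
    Function.Injective p ∧
    (∀ i, ∃ a b : Plane, a ≠ b ∧ s i = segment ℝ a b) ∧
    (∀ i j, i ≠ j → (s i ∩ s j).Subsingleton ∧ ∀ x ∈ s i ∩ s j, ∃ v, x = p v) ∧
    (∀ v i, p v ∈ s i ↔ v ∈ H.edge i)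

end HGraph

/-! ## The drawing of the incidence graph -/

/-- Twice the signed area of the triangle `a b c`. -/
def area (a b c : Plane) : ℝ := (b.1 - a.1) * (c.2 - a.2) - (b.2 - a.2) * (c.1 - a.1)

/-- Integer version of `area`. -/
def areaZ (a b c : ℤ × ℤ) : ℤ := (b.1 - a.1) * (c.2 - a.2) - (b.2 - a.2) * (c.1 - a.1)

/-- Integer scalar product of `q - p` and `r - p`. -/
def dotZ (p q r : ℤ × ℤ) : ℤ := (q.1 - p.1) * (r.1 - p.1) + (q.2 - p.2) * (r.2 - p.2)

/-- the point of the real plane given by an integer point -/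
def toPlane (a : ℤ × ℤ) : Plane := ((a.1 : ℝ), (a.2 : ℝ))

lemma toPlane_injective : Function.Injective toPlane := by
  intro a b h
  simp only [toPlane, Prod.mk.injEq, Int.cast_inj] at h
  exact Prod.ext h.1 h.2

lemma area_toPlane (a b c : ℤ × ℤ) : area (toPlane a) (toPlane b) (toPlane c) = areaZ a b c := by
  simp [area, areaZ, toPlane]

lemma mem_segment_iff_coord {a b x : Plane} :
    x ∈ segment ℝ a b ↔ ∃ t : ℝ, 0 ≤ t ∧ t ≤ 1 ∧ x.1 = (1 - t) * a.1 + t * b.1 ∧
      x.2 = (1 - t) * a.2 + t * b.2 := by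
  constructor
  · rintro ⟨u, v, hu, hv, huv, rfl⟩
    refine ⟨v, hv, by linarith, ?_, ?_⟩ <;> simp [← huv]
  · rintro ⟨t, h0, h1, hx, hy⟩
    refine ⟨1 - t, t, by linarith, h0, by ring, ?_⟩
    ext <;> simp [hx, hy]

lemma mem_openSegment_iff_coord {a b x : Plane} :
    x ∈ openSegment ℝ a b ↔ ∃ t : ℝ, 0 < t ∧ t < 1 ∧ x.1 = (1 - t) * a.1 + t * b.1 ∧
      x.2 = (1 - t) * a.2 + t * b.2 := by
  constructor
  · rintro ⟨u, v, hu, hv, huv, rfl⟩
    refine ⟨v, hv, by linarith, ?_, ?_⟩ <;> simp [← huv]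
  · rintro ⟨t, h0, h1, hx, hy⟩
    refine ⟨1 - t, t, by linarith, h0, by ring, ?_⟩
    ext <;> simp [hx, hy]

/-- `area` is affine in its last argument. -/
lemma area_of_coord {a b c d x : Plane} {t : ℝ} (h1 : x.1 = (1 - t) * c.1 + t * d.1)
    (h2 : x.2 = (1 - t) * c.2 + t * d.2) :
    area a b x = (1 - t) * area a b c + t * area a b d := by
  simp only [area, h1, h2]; ring

lemma area_of_mem_segment {a b x : Plane} (h : x ∈ segment ℝ a b) : area a b x = 0 := by
  obtain ⟨t, -, -, h1, h2⟩ := mem_segment_iff_coord.1 h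
  simp only [area, h1, h2]; ring

/-- A Boolean test on integer segments guaranteeing disjointness. -/
def sepTest (a b c d : ℤ × ℤ) : Bool :=
  (0 < areaZ a b c && 0 < areaZ a b d) || (areaZ a b c < 0 && areaZ a b d < 0) ||
  (0 < areaZ c d a && 0 < areaZ c d b) || (areaZ c d a < 0 && areaZ c d b < 0) ||
  (a.2 < c.2 && a.2 < d.2 && b.2 < c.2 && b.2 < d.2) ||
  (c.2 < a.2 && d.2 < a.2 && c.2 < b.2 && d.2 < b.2)

lemma sepTest_sound {a b c d : ℤ × ℤ} (h : sepTest a b c d = true) (x : Plane)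
    (h1 : x ∈ segment ℝ (toPlane a) (toPlane b)) (h2 : x ∈ segment ℝ (toPlane c) (toPlane d)) :
    False := by
  have e1 := area_of_mem_segment h1
  have e2 := area_of_mem_segment h2
  obtain ⟨t, ht0, ht1, hx1, hx2⟩ := mem_segment_iff_coord.1 h1
  obtain ⟨u, hu0, hu1, hy1, hy2⟩ := mem_segment_iff_coord.1 h2
  have f1 := area_of_coord (a := toPlane a) (b := toPlane b) hy1 hy2
  have f2 := area_of_coord (a := toPlane c) (b := toPlane d) hx1 hx2
  rw [e1, area_toPlane, area_toPlane] at f1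
  rw [e2, area_toPlane, area_toPlane] at f2
  simp only [sepTest, Bool.or_eq_true, Bool.and_eq_true, decide_eq_true_eq] at h
  rcases h with ((((h | h) | h) | h) | h) | h
  · have g1 : (0 : ℝ) < areaZ a b c := by exact_mod_cast h.1
    have g2 : (0 : ℝ) < areaZ a b d := by exact_mod_cast h.2
    rcases eq_or_lt_of_le hu0 with h' | h'
    · subst h'; linarith
    · nlinarith [mul_pos h' g2, mul_nonneg (sub_nonneg.2 hu1) g1.le]
  · have g1 : ((areaZ a b c : ℤ) : ℝ) < 0 := by exact_mod_cast h.1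
    have g2 : ((areaZ a b d : ℤ) : ℝ) < 0 := by exact_mod_cast h.2
    rcases eq_or_lt_of_le hu0 with h' | h'
    · subst h'; linarith
    · nlinarith [mul_pos h' (neg_pos.2 g2), mul_nonneg (sub_nonneg.2 hu1) (neg_pos.2 g1).le]
  · have g1 : (0 : ℝ) < areaZ c d a := by exact_mod_cast h.1
    have g2 : (0 : ℝ) < areaZ c d b := by exact_mod_cast h.2
    rcases eq_or_lt_of_le ht0 with h' | h'
    · subst h'; linarith
    · nlinarith [mul_pos h' g2, mul_nonneg (sub_nonneg.2 ht1) g1.le]
  · have g1 : ((areaZ c d a : ℤ) : ℝ) < 0 := by exact_mod_cast h.1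
    have g2 : ((areaZ c d b : ℤ) : ℝ) < 0 := by exact_mod_cast h.2
    rcases eq_or_lt_of_le ht0 with h' | h'
    · subst h'; linarith
    · nlinarith [mul_pos h' (neg_pos.2 g2), mul_nonneg (sub_nonneg.2 ht1) (neg_pos.2 g1).le]
  · obtain ⟨⟨⟨g1, g2⟩, g3⟩, g4⟩ := h
    have g1 : (a.2 : ℝ) < c.2 := by exact_mod_cast g1
    have g2 : (a.2 : ℝ) < d.2 := by exact_mod_cast g2
    have g3 : (b.2 : ℝ) < c.2 := by exact_mod_cast g3
    have g4 : (b.2 : ℝ) < d.2 := by exact_mod_cast g4
    simp only [toPlane] at hx2 hy2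
    rw [hx2] at hy2
    have k1 : (1 - t) * (a.2 : ℝ) + t * b.2 ≤ max (a.2 : ℝ) b.2 := by
      nlinarith [le_max_left (a.2 : ℝ) b.2, le_max_right (a.2 : ℝ) b.2,
        mul_le_mul_of_nonneg_left (le_max_left (a.2 : ℝ) b.2) (sub_nonneg.2 ht1),
        mul_le_mul_of_nonneg_left (le_max_right (a.2 : ℝ) b.2) ht0]
    have k2 : min (c.2 : ℝ) d.2 ≤ (1 - u) * (c.2 : ℝ) + u * d.2 := by
      nlinarith [mul_le_mul_of_nonneg_left (min_le_left (c.2 : ℝ) d.2) (sub_nonneg.2 hu1),
        mul_le_mul_of_nonneg_left (min_le_right (c.2 : ℝ) d.2) hu0]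
    have k3 : max (a.2 : ℝ) b.2 < min (c.2 : ℝ) d.2 :=
      max_lt (lt_min g1 g2) (lt_min g3 g4)
    linarith
  · obtain ⟨⟨⟨g1, g2⟩, g3⟩, g4⟩ := h
    have g1 : (c.2 : ℝ) < a.2 := by exact_mod_cast g1
    have g2 : (d.2 : ℝ) < a.2 := by exact_mod_cast g2
    have g3 : (c.2 : ℝ) < b.2 := by exact_mod_cast g3
    have g4 : (d.2 : ℝ) < b.2 := by exact_mod_cast g4
    simp only [toPlane] at hx2 hy2
    rw [hx2] at hy2
    have k1 : (1 - u) * (c.2 : ℝ) + u * d.2 ≤ max (c.2 : ℝ) d.2 := by
      nlinarith [mul_le_mul_of_nonneg_left (le_max_left (c.2 : ℝ) d.2) (sub_nonneg.2 hu1),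
        mul_le_mul_of_nonneg_left (le_max_right (c.2 : ℝ) d.2) hu0]
    have k2 : min (a.2 : ℝ) b.2 ≤ (1 - t) * (a.2 : ℝ) + t * b.2 := by
      nlinarith [mul_le_mul_of_nonneg_left (min_le_left (a.2 : ℝ) b.2) (sub_nonneg.2 ht1),
        mul_le_mul_of_nonneg_left (min_le_right (a.2 : ℝ) b.2) ht0]
    have k3 : max (c.2 : ℝ) d.2 < min (a.2 : ℝ) b.2 :=
      max_lt (lt_min g1 g3) (lt_min g2 g4)
    linarith

/-- A Boolean test on two integer segments `[p,q]`, `[p,r]` guaranteeing that they meet only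
in `p`. -/
def fanTest (p q r : ℤ × ℤ) : Bool := (areaZ p q r != 0) || (dotZ p q r < 0)

lemma fanTest_sound {p q r : ℤ × ℤ} (h : fanTest p q r = true) (x : Plane)
    (h1 : x ∈ segment ℝ (toPlane p) (toPlane q)) (h2 : x ∈ segment ℝ (toPlane p) (toPlane r)) :
    x = toPlane p := by
  obtain ⟨t, ht0, ht1, hx1, hx2⟩ := mem_segment_iff_coord.1 h1
  obtain ⟨u, hu0, hu1, hy1, hy2⟩ := mem_segment_iff_coord.1 h2
  simp only [fanTest, Bool.or_eq_true, bne_iff_ne, ne_eq, decide_eq_true_eq] at h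
  have a1 : x.1 - (p.1 : ℝ) = t * (q.1 - p.1) := by rw [hx1]; simp [toPlane]; ring
  have a2 : x.2 - (p.2 : ℝ) = t * (q.2 - p.2) := by rw [hx2]; simp [toPlane]; ring
  have b1 : x.1 - (p.1 : ℝ) = u * (r.1 - p.1) := by rw [hy1]; simp [toPlane]; ring
  have b2 : x.2 - (p.2 : ℝ) = u * (r.2 - p.2) := by rw [hy2]; simp [toPlane]; ring
  have key : x.1 - (p.1 : ℝ) = 0 ∧ x.2 - (p.2 : ℝ) = 0 := by
    rcases h with h | h
    · have h' : ((areaZ p q r : ℤ) : ℝ) ≠ 0 := by exact_mod_cast h
      have h'' : t * ((areaZ p q r : ℤ) : ℝ) = 0 := by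
        simp only [areaZ]; push_cast
        have : t * (((q.1 : ℝ) - p.1) * (r.2 - p.2) - (q.2 - p.2) * (r.1 - p.1)) =
          (t * ((q.1 : ℝ) - p.1)) * (r.2 - p.2) - (t * (q.2 - p.2)) * (r.1 - p.1) := by ring
        rw [this, ← a1, ← a2, b1, b2]; ring
      have ht : t = 0 := by
        rcases mul_eq_zero.1 h'' with h3 | h3
        · exact h3
        · exact absurd h3 h'
      subst ht
      constructor
      · rw [a1]; ring
      · rw [a2]; ring
    · have h' : ((dotZ p q r : ℤ) : ℝ) < 0 := by exact_mod_cast h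
      simp only [dotZ] at h'; push_cast at h'
      have h'' : (x.1 - (p.1 : ℝ)) ^ 2 + (x.2 - (p.2 : ℝ)) ^ 2 ≤ 0 := by
        have : (x.1 - (p.1 : ℝ)) ^ 2 + (x.2 - (p.2 : ℝ)) ^ 2 =
          (t * u) * (((q.1 : ℝ) - p.1) * (r.1 - p.1) + (q.2 - p.2) * (r.2 - p.2)) := by
          calc (x.1 - (p.1 : ℝ)) ^ 2 + (x.2 - (p.2 : ℝ)) ^ 2 =
              (x.1 - (p.1 : ℝ)) * (x.1 - (p.1 : ℝ)) + (x.2 - (p.2 : ℝ)) * (x.2 - (p.2 : ℝ)) := by
                ring
            _ = (t * (q.1 - p.1)) * (u * (r.1 - p.1)) + (t * (q.2 - p.2)) * (u * (r.2 - p.2)) := by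
                conv_lhs => rw [show (x.1 - (p.1 : ℝ)) * (x.1 - (p.1 : ℝ)) =
                  (t * (q.1 - p.1)) * (u * (r.1 - p.1)) by rw [← a1, ← b1],
                  show (x.2 - (p.2 : ℝ)) * (x.2 - (p.2 : ℝ)) =
                  (t * (q.2 - p.2)) * (u * (r.2 - p.2)) by rw [← a2, ← b2]]
            _ = _ := by ring
        rw [this]
        nlinarith [mul_nonneg ht0 hu0]
      constructor <;> nlinarith [sq_nonneg (x.1 - (p.1 : ℝ)), sq_nonneg (x.2 - (p.2 : ℝ))]
  ext
  · simp only [toPlane]; linarith [key.1]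
  · simp only [toPlane]; linarith [key.2]

/-- The sixteen edges: four triples (the black faces of the octahedron), and three pairs for each
of the four hubs `6, 7, 8, 9` (one in each white face). -/
def edgeFun : Fin 16 → Finset (Fin 10) :=
  ![{0, 1, 2}, {0, 3, 4}, {1, 3, 5}, {2, 4, 5},
    {6, 3}, {6, 4}, {6, 5},
    {7, 1}, {7, 2}, {7, 5},
    {8, 0}, {8, 2}, {8, 4},
    {9, 0}, {9, 1}, {9, 3}]

/-- The counterexample. -/
def theH : HGraph (Fin 10) (Fin 16) where
  edge := edgeFun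
  edge_nonempty := by decide

/-- positions of the vertices in the drawing of the incidence graph -/
def vpos : Fin 10 → ℤ × ℤ :=
  ![(0, 72), (-72, -72), (72, -72), (-18, 12), (18, 12), (0, -36),
    (0, -4), (0, -60), (30, 4), (-30, 4)]

/-- positions of the edge nodes in the drawing of the incidence graph -/
def epos : Fin 16 → ℤ × ℤ :=
  ![(0, 144), (0, 32), (-30, -32), (30, -32), (-9, 4), (9, 4), (0, -20), (-36, -66), (36, -66),
    (0, -48), (15, 38), (51, -34), (24, 8), (-15, 38), (-51, -34), (-24, 8)]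

/-- The list of all incidences. -/
def incList : List (Fin 10 × Fin 16) :=
  (List.finRange 16).flatMap fun e => ((List.finRange 10).filter fun v => v ∈ edgeFun e).map
    fun v => (v, e)

/-- the test for a pair of incidences -/
def pairTest (a b : Fin 10 × Fin 16) : Bool :=
  if a.1 = b.1 then
    (if a.2 = b.2 then true else fanTest (vpos a.1) (epos a.2) (epos b.2))
  else
    (if a.2 = b.2 then fanTest (epos a.2) (vpos a.1) (vpos b.1)
      else sepTest (vpos a.1) (epos a.2) (vpos b.1) (epos b.2))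

lemma allTest : (incList.all fun a => incList.all fun b => pairTest a b) = true := by
  decide +kernel

lemma mem_incList {v : Fin 10} {e : Fin 16} (h : v ∈ edgeFun e) : (v, e) ∈ incList := by
  simp only [incList, List.mem_flatMap, List.mem_finRange, true_and, List.mem_map, List.mem_filter,
    decide_eq_true_eq, Prod.mk.injEq]
  exact ⟨e, v, h, rfl, rfl⟩

lemma pairTest_of_mem {v v' : Fin 10} {e e' : Fin 16} (h : v ∈ edgeFun e) (h' : v' ∈ edgeFun e') :
    pairTest (v, e) (v', e') = true := by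
  have h1 := List.all_eq_true.1 allTest (v, e) (mem_incList h)
  exact List.all_eq_true.1 h1 (v', e') (mem_incList h')

/-- positions of all nodes -/
def npos : Fin 10 ⊕ Fin 16 → ℤ × ℤ := Sum.elim vpos epos

lemma npos_injective : Function.Injective npos := by
  have h1 : ∀ a b : Fin 10, vpos a = vpos b → a = b := by decide
  have h2 : ∀ a b : Fin 16, epos a = epos b → a = b := by decide
  have h3 : ∀ (a : Fin 10) (b : Fin 16), vpos a ≠ epos b := by decide
  rintro (a | a) (b | b) h
  · rw [h1 a b h]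
  · exact absurd h (h3 a b)
  · exact absurd h.symm (h3 b a)
  · rw [h2 a b h]

/-- the arcs of the drawing: straight segments -/
def arcFun (e : Sym2 (Fin 10 ⊕ Fin 16)) : Set Plane :=
  {x | ∃ u v, e = s(u, v) ∧ x ∈ segment ℝ (toPlane (npos u)) (toPlane (npos v))}

lemma arcFun_mk (u v : Fin 10 ⊕ Fin 16) :
    arcFun s(u, v) = segment ℝ (toPlane (npos u)) (toPlane (npos v)) := by
  ext x
  constructor
  · rintro ⟨u', v', h, hx⟩
    rcases Sym2.eq_iff.1 h with ⟨rfl, rfl⟩ | ⟨rfl, rfl⟩
    · exact hx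
    · rw [segment_symm]; exact hx
  · intro hx
    exact ⟨u, v, rfl, hx⟩

lemma isArc_segment {a b : Plane} (h : a ≠ b) : IsArc (segment ℝ a b) a b := by
  refine ⟨fun t => AffineMap.lineMap a b t, ?_, ?_, ?_, ?_, ?_⟩
  · exact (AffineMap.lineMap_continuous).continuousOn
  · exact (AffineMap.lineMap_injective ℝ h).injOn
  · simp
  · simp
  · rw [segment_eq_image_lineMap]

lemma edge_normal {e : Sym2 (Fin 10 ⊕ Fin 16)} (he : e ∈ theH.incidenceGraph.edgeSet) :
    ∃ v i, v ∈ edgeFun i ∧ e = s(Sum.inl v, Sum.inr i) := by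
  induction e using Sym2.inductionOn with
  | hf a b =>
    rw [SimpleGraph.mem_edgeSet] at he
    rcases he with ⟨v, i, h, ha, hb⟩ | ⟨v, i, h, ha, hb⟩
    · exact ⟨v, i, h, by rw [ha, hb]⟩
    · exact ⟨v, i, h, by rw [ha, hb]; exact Sym2.eq_swap⟩

/-- Nodes not on an arc: for each incidence `(v, i)` and each node `w` different from both. -/
def nodeTest (a b w : ℤ × ℤ) : Bool :=
  (areaZ a b w != 0) || (0 < dotZ w a b)

lemma nodeTest_sound {a b w : ℤ × ℤ} (h : nodeTest a b w = true)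
    (h1 : toPlane w ∈ segment ℝ (toPlane a) (toPlane b)) : False := by
  simp only [nodeTest, Bool.or_eq_true, bne_iff_ne, ne_eq, decide_eq_true_eq] at h
  rcases h with h | h
  · have e1 := area_of_mem_segment h1
    rw [area_toPlane] at e1
    exact h (by exact_mod_cast e1)
  · obtain ⟨t, ht0, ht1, hx1, hx2⟩ := mem_segment_iff_coord.1 h1
    have h' : (0 : ℝ) < ((dotZ w a b : ℤ) : ℝ) := by exact_mod_cast h
    simp only [dotZ] at h'; push_cast at h'
    simp only [toPlane] at hx1 hx2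
    have : ((a.1 : ℝ) - w.1) * (b.1 - w.1) + (a.2 - w.2) * (b.2 - w.2) =
      -(t * (1 - t)) * (((b.1 : ℝ) - a.1) ^ 2 + (b.2 - a.2) ^ 2) := by
      rw [hx1, hx2]; ring
    rw [this] at h'
    nlinarith [mul_nonneg (mul_nonneg ht0 (sub_nonneg.2 ht1))
      (add_nonneg (sq_nonneg ((b.1 : ℝ) - a.1)) (sq_nonneg ((b.2 : ℝ) - a.2)))]

/-- the list of all nodes -/
def nodeList : List (Fin 10 ⊕ Fin 16) :=
  (List.finRange 10).map Sum.inl ++ (List.finRange 16).map Sum.inr

lemma mem_nodeList (w : Fin 10 ⊕ Fin 16) : w ∈ nodeList := by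
  rcases w with w | w <;> simp [nodeList]

lemma allNodeTest : (incList.all fun a => nodeList.all fun w =>
    if w = Sum.inl a.1 ∨ w = Sum.inr a.2 then true
    else nodeTest (vpos a.1) (epos a.2) (npos w)) = true := by
  decide +kernel

lemma theH_planar : theH.IsPlanar := by
  refine ⟨fun w => toPlane (npos w), arcFun, toPlane_injective.comp npos_injective, ?_, ?_, ?_⟩
  · intro u v huv
    rw [arcFun_mk]
    apply isArc_segment
    intro h
    exact huv.ne (npos_injective (toPlane_injective h))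
  · intro e he w hw hx
    obtain ⟨v, i, hv, rfl⟩ := edge_normal he
    rw [arcFun_mk] at hx
    have h1 := List.all_eq_true.1 allNodeTest (v, i) (mem_incList hv)
    have h2 := List.all_eq_true.1 h1 w (mem_nodeList w)
    have hw1 : w ≠ Sum.inl v := fun h => hw (by rw [h]; exact Sym2.mem_mk_left _ _)
    have hw2 : w ≠ Sum.inr i := fun h => hw (by rw [h]; exact Sym2.mem_mk_right _ _)
    simp only [hw1, hw2, or_self, if_false] at h2
    exact nodeTest_sound h2 hx
  · intro e he f hf hef x hxe hxf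
    obtain ⟨v, i, hv, rfl⟩ := edge_normal he
    obtain ⟨w, j, hw, rfl⟩ := edge_normal hf
    rw [arcFun_mk] at hxe hxf
    have hp := pairTest_of_mem hv hw
    simp only [npos, Sum.elim_inl, Sum.elim_inr] at hxe hxf
    by_cases h1 : v = w
    · subst h1
      by_cases h2 : i = j
      · subst h2; exact absurd rfl hef
      · simp only [pairTest, if_true, if_neg h2] at hp
        exact ⟨Sum.inl v, Sym2.mem_mk_left _ _, Sym2.mem_mk_left _ _, fanTest_sound hp x hxe hxf⟩
    · by_cases h2 : i = j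
      · subst h2
        simp only [pairTest, if_true, if_neg h1] at hp
        rw [segment_symm] at hxe hxf
        exact ⟨Sum.inr i, Sym2.mem_mk_right _ _, Sym2.mem_mk_right _ _,
          fanTest_sound hp x hxe hxf⟩
      · simp only [pairTest, if_neg h1, if_neg h2] at hp
        exact absurd (sepTest_sound hp x hxe hxf) id

/-! ## Plane geometry -/

/-- barycentric expansion -/
lemma bary_coord (P A C X : Plane) :
    area P A C * X.1 = area X A C * P.1 + area P X C * A.1 + area P A X * C.1 ∧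
    area P A C * X.2 = area X A C * P.2 + area P X C * A.2 + area P A X * C.2 ∧
    area P A C = area X A C + area P X C + area P A X := by
  refine ⟨?_, ?_, ?_⟩ <;> simp only [area] <;> ring

/-- the three normalised barycentric coordinates -/
noncomputable def bc (P A C X : Plane) : Fin 3 → ℝ :=
  ![area X A C / area P A C, area P X C / area P A C, area P A X / area P A C]

lemma bc_sum {P A C : Plane} (h : area P A C ≠ 0) (X : Plane) :
    bc P A C X 0 + bc P A C X 1 + bc P A C X 2 = 1 := by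
  simp only [bc, Matrix.cons_val_zero, Matrix.cons_val_one, Matrix.cons_val_two, Matrix.head_cons,
    Matrix.tail_cons]
  rw [← add_div, ← add_div, ← (bary_coord P A C X).2.2, div_self h]

lemma bc_fst {P A C : Plane} (h : area P A C ≠ 0) (X : Plane) :
    X.1 = bc P A C X 0 * P.1 + bc P A C X 1 * A.1 + bc P A C X 2 * C.1 := by
  simp only [bc, Matrix.cons_val_zero, Matrix.cons_val_one, Matrix.cons_val_two, Matrix.head_cons,
    Matrix.tail_cons]
  field_simp
  linarith [(bary_coord P A C X).1]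

lemma bc_snd {P A C : Plane} (h : area P A C ≠ 0) (X : Plane) :
    X.2 = bc P A C X 0 * P.2 + bc P A C X 1 * A.2 + bc P A C X 2 * C.2 := by
  simp only [bc, Matrix.cons_val_zero, Matrix.cons_val_one, Matrix.cons_val_two, Matrix.head_cons,
    Matrix.tail_cons]
  field_simp
  linarith [(bary_coord P A C X).2.1]

lemma bc_affine {P A C X Y Z : Plane} {t : ℝ} (h1 : Z.1 = (1 - t) * X.1 + t * Y.1)
    (h2 : Z.2 = (1 - t) * X.2 + t * Y.2) (i : Fin 3) :
    bc P A C Z i = (1 - t) * bc P A C X i + t * bc P A C Y i := by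
  fin_cases i <;> simp [bc, area, h1, h2] <;> ring

lemma mem_side {P A : Plane} {s t : ℝ} {Z : Plane} (hs : 0 ≤ s) (ht : 0 ≤ t) (hst : s + t = 1)
    (h1 : Z.1 = s * P.1 + t * A.1) (h2 : Z.2 = s * P.2 + t * A.2) : Z ∈ segment ℝ P A := by
  refine mem_segment_iff_coord.2 ⟨t, ht, by linarith, ?_, ?_⟩
  · rw [h1, show s = 1 - t by linarith]
  · rw [h2, show s = 1 - t by linarith]

/-- A segment leaving a closed triangle meets one of its sides. -/
lemma exit_triangle {P A C X Y : Plane} (h : area P A C ≠ 0) (hX : ∀ i, 0 ≤ bc P A C X i)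
    (hY : ∃ i, bc P A C Y i < 0) :
    ∃ Z ∈ segment ℝ X Y, Z ∈ segment ℝ P A ∨ Z ∈ segment ℝ A C ∨ Z ∈ segment ℝ P C := by
  let g : ℝ → ℝ := fun t => min (min ((1 - t) * bc P A C X 0 + t * bc P A C Y 0)
    ((1 - t) * bc P A C X 1 + t * bc P A C Y 1)) ((1 - t) * bc P A C X 2 + t * bc P A C Y 2)
  have hg : Continuous g := by fun_prop
  have h0 : 0 ≤ g 0 := by
    simp only [g, sub_zero, one_mul, zero_mul, add_zero]
    exact le_min (le_min (hX 0) (hX 1)) (hX 2)
  have h1 : g 1 ≤ 0 := by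
    simp only [g, sub_self, one_mul, zero_mul, zero_add]
    obtain ⟨i, hi⟩ := hY
    fin_cases i
    · exact (min_le_left _ _).trans ((min_le_left _ _).trans hi.le)
    · exact (min_le_left _ _).trans ((min_le_right _ _).trans hi.le)
    · exact (min_le_right _ _).trans hi.le
  obtain ⟨t, ht, hgt⟩ := intermediate_value_Icc' zero_le_one hg.continuousOn
    (show (0 : ℝ) ∈ Icc (g 1) (g 0) from ⟨h1, h0⟩)
  let Z : Plane := ((1 - t) * X.1 + t * Y.1, (1 - t) * X.2 + t * Y.2)
  have hZ : ∀ i, bc P A C Z i = (1 - t) * bc P A C X i + t * bc P A C Y i :=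
    fun i => bc_affine rfl rfl i
  have hgZ : min (min (bc P A C Z 0) (bc P A C Z 1)) (bc P A C Z 2) = 0 := by
    rw [hZ 0, hZ 1, hZ 2]; exact hgt
  have z0 : 0 ≤ bc P A C Z 0 := by
    rw [← hgZ]; exact (min_le_left _ _).trans (min_le_left _ _)
  have z1 : 0 ≤ bc P A C Z 1 := by
    rw [← hgZ]; exact (min_le_left _ _).trans (min_le_right _ _)
  have z2 : 0 ≤ bc P A C Z 2 := by
    rw [← hgZ]; exact min_le_right _ _
  have zs := bc_sum h Z
  have zf := bc_fst h Z
  have zn := bc_snd h Z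
  refine ⟨Z, mem_segment_iff_coord.2 ⟨t, ht.1, ht.2, rfl, rfl⟩, ?_⟩
  rcases min_choice (min (bc P A C Z 0) (bc P A C Z 1)) (bc P A C Z 2) with hm | hm
  · rw [hm] at hgZ
    rcases min_choice (bc P A C Z 0) (bc P A C Z 1) with hm' | hm'
    · rw [hm'] at hgZ
      right; left
      rw [hgZ] at zs zf zn
      exact mem_side z1 z2 (by linarith) (by linarith) (by linarith)
    · rw [hm'] at hgZ
      right; right
      rw [hgZ] at zs zf zn
      exact mem_side z0 z2 (by linarith) (by linarith) (by linarith)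
  · rw [hm] at hgZ
    left
    rw [hgZ] at zs zf zn
    exact mem_side z0 z1 (by linarith) (by linarith) (by linarith)

/-- A segment starting in the relative interior of the side `A C` of a triangle, going to the side
of `P`, and meeting neither `P A` nor `P C` ends in the closed triangle. -/
lemma stay_triangle {P A C E D : Plane} (h : area P A C ≠ 0) (hE : E ∈ openSegment ℝ A C)
    (hD : 0 ≤ bc P A C D 0) (h1 : Disjoint (segment ℝ P A) (segment ℝ E D))
    (h2 : Disjoint (segment ℝ P C) (segment ℝ E D)) : ∀ i, 0 ≤ bc P A C D i := by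
  obtain ⟨r, hr0, hr1, he1, he2⟩ := mem_openSegment_iff_coord.1 hE
  have e0 : bc P A C E 0 = 0 := by
    simp only [bc, Matrix.cons_val_zero]
    have : area E A C = 0 := by simp only [area, he1, he2]; ring
    rw [this, zero_div]
  have e1 : bc P A C E 1 = 1 - r := by
    simp only [bc, Matrix.cons_val_one, Matrix.cons_val]
    rw [div_eq_iff h]
    simp only [area, he1, he2]; ring
  have e2 : bc P A C E 2 = r := by
    simp only [bc, Matrix.cons_val_two, Matrix.tail_cons, Matrix.head_cons]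
    rw [div_eq_iff h]
    simp only [area, he1, he2]; ring
  by_contra hcon
  push Not at hcon
  have hcon' : bc P A C D 1 < 0 ∨ bc P A C D 2 < 0 := by
    obtain ⟨i, hi⟩ := hcon
    fin_cases i
    · exact absurd hi (not_lt.2 hD)
    · exact Or.inl hi
    · exact Or.inr hi
  let g : ℝ → ℝ := fun t => min ((1 - t) * bc P A C E 1 + t * bc P A C D 1)
    ((1 - t) * bc P A C E 2 + t * bc P A C D 2)
  have hg : Continuous g := by fun_prop
  have g0 : 0 ≤ g 0 := by
    simp only [g, sub_zero, one_mul, zero_mul, add_zero, e1, e2]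
    exact le_min (by linarith) hr0.le
  have g1 : g 1 ≤ 0 := by
    simp only [g, sub_self, one_mul, zero_mul, zero_add]
    rcases hcon' with hi | hi
    · exact (min_le_left _ _).trans hi.le
    · exact (min_le_right _ _).trans hi.le
  obtain ⟨t, ht, hgt⟩ := intermediate_value_Icc' zero_le_one hg.continuousOn
    (show (0 : ℝ) ∈ Icc (g 1) (g 0) from ⟨g1, g0⟩)
  let Z : Plane := ((1 - t) * E.1 + t * D.1, (1 - t) * E.2 + t * D.2)
  have hZ : ∀ i, bc P A C Z i = (1 - t) * bc P A C E i + t * bc P A C D i :=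
    fun i => bc_affine rfl rfl i
  have hgZ : min (bc P A C Z 1) (bc P A C Z 2) = 0 := by
    rw [hZ 1, hZ 2]; exact hgt
  have z0 : 0 ≤ bc P A C Z 0 := by
    rw [hZ 0, e0]; nlinarith [mul_nonneg ht.1 hD]
  have z1 : 0 ≤ bc P A C Z 1 := by
    rw [← hgZ]; exact min_le_left _ _
  have z2 : 0 ≤ bc P A C Z 2 := by
    rw [← hgZ]; exact min_le_right _ _
  have zs := bc_sum h Z
  have zf := bc_fst h Z
  have zn := bc_snd h Z
  have hZm : Z ∈ segment ℝ E D := mem_segment_iff_coord.2 ⟨t, ht.1, ht.2, rfl, rfl⟩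
  rcases min_choice (bc P A C Z 1) (bc P A C Z 2) with hm | hm
  · rw [hm] at hgZ
    rw [hgZ] at zs zf zn
    exact Set.disjoint_left.1 h2
      (mem_side z0 z2 (by linarith) (by linarith) (by linarith)) hZm
  · rw [hm] at hgZ
    rw [hgZ] at zs zf zn
    exact Set.disjoint_left.1 h1
      (mem_side z0 z1 (by linarith) (by linarith) (by linarith)) hZm

/-- Two triangles cannot cross exactly once (version with a side condition). -/
lemma cross_once_aux {P A C Q D F E : Plane} (hP : area P A C ≠ 0)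
    (hE1 : E ∈ openSegment ℝ A C) (hE2 : E ∈ openSegment ℝ D F)
    (hD : 0 < bc P A C D 0)
    (h1 : Disjoint (segment ℝ P A) (segment ℝ D F))
    (h2 : Disjoint (segment ℝ P C) (segment ℝ D F))
    (h3 : Disjoint (segment ℝ A C) (segment ℝ Q D))
    (h4 : Disjoint (segment ℝ A C) (segment ℝ Q F))
    (h5 : Disjoint (segment ℝ P A) (segment ℝ Q D))
    (h6 : Disjoint (segment ℝ P A) (segment ℝ Q F))
    (h7 : Disjoint (segment ℝ P C) (segment ℝ Q D))
    (h8 : Disjoint (segment ℝ P C) (segment ℝ Q F)) : False := by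
  have hED : segment ℝ E D ⊆ segment ℝ D F :=
    (convex_segment D F).segment_subset (openSegment_subset_segment ℝ D F hE2)
      (left_mem_segment ℝ D F)
  have hDT : ∀ i, 0 ≤ bc P A C D i :=
    stay_triangle hP hE1 hD.le (h1.mono_right hED) (h2.mono_right hED)
  have hF : bc P A C F 0 < 0 := by
    obtain ⟨t, ht0, ht1, hx1, hx2⟩ := mem_openSegment_iff_coord.1 hE2
    have e0 : bc P A C E 0 = 0 := by
      obtain ⟨r, hr0, hr1, he1, he2⟩ := mem_openSegment_iff_coord.1 hE1
      simp only [bc, Matrix.cons_val_zero]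
      have : area E A C = 0 := by simp only [area, he1, he2]; ring
      rw [this, zero_div]
    have := bc_affine (P := P) (A := A) (C := C) hx1 hx2 0
    rw [e0] at this
    by_contra hcon
    push Not at hcon
    nlinarith [mul_pos (sub_pos.2 ht1) hD, mul_nonneg ht0.le hcon]
  by_cases hQ : ∀ i, 0 ≤ bc P A C Q i
  · obtain ⟨Z, hZ, hZ'⟩ := exit_triangle hP hQ ⟨0, hF⟩
    rcases hZ' with hZ' | hZ' | hZ'
    · exact Set.disjoint_left.1 h6 hZ' hZ
    · exact Set.disjoint_left.1 h4 hZ' hZ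
    · exact Set.disjoint_left.1 h8 hZ' hZ
  · push Not at hQ
    obtain ⟨Z, hZ, hZ'⟩ := exit_triangle hP hDT hQ
    rw [segment_symm] at hZ
    rcases hZ' with hZ' | hZ' | hZ'
    · exact Set.disjoint_left.1 h5 hZ' hZ
    · exact Set.disjoint_left.1 h3 hZ' hZ
    · exact Set.disjoint_left.1 h7 hZ' hZ

/-- Two triangles cannot cross exactly once. -/
lemma cross_once {P A C Q D F E : Plane} (hP : area P A C ≠ 0) (hACD : area D A C ≠ 0)
    (hE1 : E ∈ openSegment ℝ A C) (hE2 : E ∈ openSegment ℝ D F)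
    (h1 : Disjoint (segment ℝ P A) (segment ℝ D F))
    (h2 : Disjoint (segment ℝ P C) (segment ℝ D F))
    (h3 : Disjoint (segment ℝ A C) (segment ℝ Q D))
    (h4 : Disjoint (segment ℝ A C) (segment ℝ Q F))
    (h5 : Disjoint (segment ℝ P A) (segment ℝ Q D))
    (h6 : Disjoint (segment ℝ P A) (segment ℝ Q F))
    (h7 : Disjoint (segment ℝ P C) (segment ℝ Q D))
    (h8 : Disjoint (segment ℝ P C) (segment ℝ Q F)) : False := by
  have hD0 : bc P A C D 0 ≠ 0 := by
    simp only [bc, Matrix.cons_val_zero]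
    exact div_ne_zero hACD hP
  rcases lt_or_gt_of_ne hD0 with hD | hD
  · have hF : 0 < bc P A C F 0 := by
      obtain ⟨t, ht0, ht1, hx1, hx2⟩ := mem_openSegment_iff_coord.1 hE2
      have e0 : bc P A C E 0 = 0 := by
        obtain ⟨r, hr0, hr1, he1, he2⟩ := mem_openSegment_iff_coord.1 hE1
        simp only [bc, Matrix.cons_val_zero]
        have : area E A C = 0 := by simp only [area, he1, he2]; ring
        rw [this, zero_div]
      have := bc_affine (P := P) (A := A) (C := C) hx1 hx2 0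
      rw [e0] at this
      by_contra hcon
      push Not at hcon
      nlinarith [mul_pos (sub_pos.2 ht1) (neg_pos.2 hD), mul_nonneg ht0.le (neg_nonneg.2 hcon)]
    rw [openSegment_symm] at hE2
    rw [segment_symm ℝ D F] at h1 h2
    exact cross_once_aux hP hE1 hE2 hF h1 h2 h4 h3 h6 h5 h8 h7
  · exact cross_once_aux hP hE1 hE2 hD h1 h2 h3 h4 h5 h6 h7 h8

/-- The cyclic configuration (three lines) is impossible. -/
lemma no_three_cycle {a b c x y z : Plane} (habc : area a b c ≠ 0) (hxyz : area x y z = 0)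
    (ha : a ∈ openSegment ℝ c x) (hb : b ∈ openSegment ℝ a y) (hc : c ∈ openSegment ℝ b z) :
    False := by
  obtain ⟨s, hs0, hs1, ha1, ha2⟩ := mem_openSegment_iff_coord.1 ha
  obtain ⟨t, ht0, ht1, hb1, hb2⟩ := mem_openSegment_iff_coord.1 hb
  obtain ⟨u, hu0, hu1, hc1, hc2⟩ := mem_openSegment_iff_coord.1 hc
  have hx1 : x.1 = (a.1 - (1 - s) * c.1) / s := by field_simp; linarith
  have hx2 : x.2 = (a.2 - (1 - s) * c.2) / s := by field_simp; linarith
  have hy1 : y.1 = (b.1 - (1 - t) * a.1) / t := by field_simp; linarith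
  have hy2 : y.2 = (b.2 - (1 - t) * a.2) / t := by field_simp; linarith
  have hz1 : z.1 = (c.1 - (1 - u) * b.1) / u := by field_simp; linarith
  have hz2 : z.2 = (c.2 - (1 - u) * b.2) / u := by field_simp; linarith
  have key : (s * t * u) * area x y z = (1 - (1 - s) * (1 - t) * (1 - u)) * area a b c := by
    simp only [area, hx1, hx2, hy1, hy2, hz1, hz2]
    field_simp
    ring
  rw [hxyz, mul_zero] at key
  have h1 : (1 - s) * (1 - t) * (1 - u) < 1 := by
    have : (1 - s) * (1 - t) < 1 := by nlinarith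
    have h0 : 0 < (1 - s) * (1 - t) := mul_pos (by linarith) (by linarith)
    nlinarith
  rcases mul_eq_zero.1 key.symm with h | h
  · linarith
  · exact habc h

/-- The cyclic configuration (four lines) is impossible. -/
lemma no_four_cycle {a b c x y z : Plane} (habc : area a b c ≠ 0) (hxyz : area x y z = 0)
    (ha : a ∈ openSegment ℝ c x) (hb : b ∈ openSegment ℝ a y) (hz : z ∈ openSegment ℝ b c) :
    False := by
  obtain ⟨s, hs0, hs1, ha1, ha2⟩ := mem_openSegment_iff_coord.1 ha
  obtain ⟨t, ht0, ht1, hb1, hb2⟩ := mem_openSegment_iff_coord.1 hb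
  obtain ⟨u, hu0, hu1, hz1, hz2⟩ := mem_openSegment_iff_coord.1 hz
  have hx1 : x.1 = (a.1 - (1 - s) * c.1) / s := by field_simp; linarith
  have hx2 : x.2 = (a.2 - (1 - s) * c.2) / s := by field_simp; linarith
  have hy1 : y.1 = (b.1 - (1 - t) * a.1) / t := by field_simp; linarith
  have hy2 : y.2 = (b.2 - (1 - t) * a.2) / t := by field_simp; linarith
  have key : (s * t) * area x y z = (u + (1 - s) * (1 - t) * (1 - u)) * area a b c := by
    simp only [area, hx1, hx2, hy1, hy2, hz1, hz2]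
    field_simp
    ring
  rw [hxyz, mul_zero] at key
  have h1 : 0 < (1 - s) * (1 - t) * (1 - u) :=
    mul_pos (mul_pos (by linarith) (by linarith)) (by linarith)
  rcases mul_eq_zero.1 key.symm with h | h
  · linarith
  · exact habc h

/-- Collinear points: the third one is a combination of two distinct ones. -/
lemma exists_param {a b c : Plane} (hab : a ≠ b) (h : area a b c = 0) :
    ∃ t : ℝ, c.1 = (1 - t) * a.1 + t * b.1 ∧ c.2 = (1 - t) * a.2 + t * b.2 := by
  have hpos : 0 < (b.1 - a.1) ^ 2 + (b.2 - a.2) ^ 2 := by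
    by_contra hcon
    push Not at hcon
    apply hab
    ext
    · nlinarith [sq_nonneg (b.1 - a.1), sq_nonneg (b.2 - a.2)]
    · nlinarith [sq_nonneg (b.1 - a.1), sq_nonneg (b.2 - a.2)]
  refine ⟨((c.1 - a.1) * (b.1 - a.1) + (c.2 - a.2) * (b.2 - a.2)) /
    ((b.1 - a.1) ^ 2 + (b.2 - a.2) ^ 2), ?_, ?_⟩
  · field_simp
    simp only [area] at h
    linear_combination (-(b.2 - a.2)) * h
  · field_simp
    simp only [area] at h
    linear_combination (b.1 - a.1) * h

/-- Three points none of which lies on the segment of the two others are not collinear. -/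
lemma area_ne_zero_of_notMem {a b c : Plane} (h1 : a ∉ segment ℝ b c) (h2 : b ∉ segment ℝ a c)
    (h3 : c ∉ segment ℝ a b) : area a b c ≠ 0 := by
  intro h
  have hab : a ≠ b := by
    rintro rfl
    exact h1 (left_mem_segment ℝ a c)
  obtain ⟨t, hc1, hc2⟩ := exists_param hab h
  rcases lt_or_ge t 0 with ht | ht
  · apply h1
    have hd : 0 < 1 - t := by linarith
    refine mem_segment_iff_coord.2 ⟨1 / (1 - t), by positivity, ?_, ?_, ?_⟩
    · rw [div_le_one hd]; linarith
    · rw [hc1]; field_simp; ring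
    · rw [hc2]; field_simp; ring
  · rcases le_or_gt t 1 with ht1 | ht1
    · exact h3 (mem_segment_iff_coord.2 ⟨t, ht, ht1, hc1, hc2⟩)
    · apply h2
      have hd : 0 < t := by linarith
      refine mem_segment_iff_coord.2 ⟨1 / t, by positivity, ?_, ?_, ?_⟩
      · rw [div_le_one hd]; linarith
      · rw [hc1]; field_simp; ring
      · rw [hc2]; field_simp; ring

/-- If `D` is on the line `A C` outside the segment, and `E` is inside, then `A` or `C` is on
`D E`. -/
lemma mem_of_collinear {D A C E : Plane} (hAC : A ≠ C) (h : area A C D = 0)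
    (hE : E ∈ openSegment ℝ A C) (hD : D ∉ segment ℝ A C) :
    A ∈ segment ℝ D E ∨ C ∈ segment ℝ D E := by
  obtain ⟨t, hD1, hD2⟩ := exists_param hAC h
  obtain ⟨r, hr0, hr1, hE1, hE2⟩ := mem_openSegment_iff_coord.1 hE
  rcases lt_or_ge t 0 with ht | ht
  · left
    have hd : 0 < r - t := by linarith
    refine mem_segment_iff_coord.2 ⟨(-t) / (r - t), ?_, ?_, ?_, ?_⟩
    · exact div_nonneg (by linarith) hd.le
    · rw [div_le_one hd]; linarith
    · rw [hD1, hE1]; field_simp; ring
    · rw [hD2, hE2]; field_simp; ring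
  · rcases le_or_gt t 1 with ht1 | ht1
    · exact absurd (mem_segment_iff_coord.2 ⟨t, ht, ht1, hD1, hD2⟩) hD
    · right
      have hd : 0 < t - r := by linarith
      refine mem_segment_iff_coord.2 ⟨(t - 1) / (t - r), ?_, ?_, ?_, ?_⟩
      · exact div_nonneg (by linarith) hd.le
      · rw [div_le_one hd]; linarith
      · rw [hD1, hE1]; field_simp; ring
      · rw [hD2, hE2]; field_simp; ring

/-- parametrised version of betweenness on a segment -/
lemma between_of_param {a b x y z : Plane} {r s t : ℝ}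
    (hx1 : x.1 = (1 - r) * a.1 + r * b.1) (hx2 : x.2 = (1 - r) * a.2 + r * b.2)
    (hy1 : y.1 = (1 - s) * a.1 + s * b.1) (hy2 : y.2 = (1 - s) * a.2 + s * b.2)
    (hz1 : z.1 = (1 - t) * a.1 + t * b.1) (hz2 : z.2 = (1 - t) * a.2 + t * b.2)
    (hrs : r < s) (hst : s < t) : y ∈ openSegment ℝ x z := by
  have hd : 0 < t - r := by linarith
  refine mem_openSegment_iff_coord.2 ⟨(s - r) / (t - r), ?_, ?_, ?_, ?_⟩
  · exact div_pos (by linarith) hd
  · rw [div_lt_one hd]; linarith
  · rw [hx1, hy1, hz1]; field_simp; ring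
  · rw [hx2, hy2, hz2]; field_simp; ring

/-- Of three distinct points on a segment, one is strictly between the two others. -/
lemma exists_between {a b x y z : Plane} (hx : x ∈ segment ℝ a b) (hy : y ∈ segment ℝ a b)
    (hz : z ∈ segment ℝ a b) (hxy : x ≠ y) (hxz : x ≠ z) (hyz : y ≠ z) :
    x ∈ openSegment ℝ y z ∨ y ∈ openSegment ℝ x z ∨ z ∈ openSegment ℝ x y := by
  obtain ⟨r, -, -, hx1, hx2⟩ := mem_segment_iff_coord.1 hx
  obtain ⟨s, -, -, hy1, hy2⟩ := mem_segment_iff_coord.1 hy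
  obtain ⟨t, -, -, hz1, hz2⟩ := mem_segment_iff_coord.1 hz
  have hrs : r ≠ s := by
    rintro rfl; exact hxy (Prod.ext (hx1.trans hy1.symm) (hx2.trans hy2.symm))
  have hrt : r ≠ t := by
    rintro rfl; exact hxz (Prod.ext (hx1.trans hz1.symm) (hx2.trans hz2.symm))
  have hst : s ≠ t := by
    rintro rfl; exact hyz (Prod.ext (hy1.trans hz1.symm) (hy2.trans hz2.symm))
  rcases lt_or_gt_of_ne hrs with h1 | h1 <;> rcases lt_or_gt_of_ne hrt with h2 | h2 <;>
    rcases lt_or_gt_of_ne hst with h3 | h3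
  · right; left; exact between_of_param hx1 hx2 hy1 hy2 hz1 hz2 h1 h3
  · right; right; exact between_of_param hx1 hx2 hz1 hz2 hy1 hy2 h2 h3
  · linarith
  · left; rw [openSegment_symm]; exact between_of_param hz1 hz2 hx1 hx2 hy1 hy2 h2 h1
  · left; exact between_of_param hy1 hy2 hx1 hx2 hz1 hz2 h1 h2
  · linarith
  · right; right; rw [openSegment_symm]; exact between_of_param hy1 hy2 hz1 hz2 hx1 hx2 h3 h2
  · right; left; rw [openSegment_symm]; exact between_of_param hz1 hz2 hy1 hy2 hx1 hx2 h3 h1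

/-- Three points on a segment are collinear. -/
lemma area_eq_zero_of_mem {a b x y z : Plane} (hx : x ∈ segment ℝ a b) (hy : y ∈ segment ℝ a b)
    (hz : z ∈ segment ℝ a b) : area x y z = 0 := by
  obtain ⟨r, -, -, hx1, hx2⟩ := mem_segment_iff_coord.1 hx
  obtain ⟨s, -, -, hy1, hy2⟩ := mem_segment_iff_coord.1 hy
  obtain ⟨t, -, -, hz1, hz2⟩ := mem_segment_iff_coord.1 hz
  simp only [area, hx1, hx2, hy1, hy2, hz1, hz2]; ring

/-! ## Combinatorics of the hypergraph -/

/-- the common vertex of the triples `i` and `j` -/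
def pt (i j : Fin 4) : Fin 10 :=
  (![![0, 0, 1, 2], ![0, 0, 3, 4], ![1, 3, 0, 5], ![2, 4, 5, 0]] : Fin 4 → Fin 4 → Fin 10) i j

/-- the triples -/
def line (i : Fin 4) : Fin 16 := (![0, 1, 2, 3] : Fin 4 → Fin 16) i

/-- the hub joined to the vertices not on the triple `k` -/
def hub (k : Fin 4) : Fin 10 := (![6, 7, 8, 9] : Fin 4 → Fin 10) k

/-- the pair joining `hub k` and `v` -/
def leg (k : Fin 4) (v : Fin 10) : Fin 16 :=
  (![![0, 0, 0, 4, 5, 6, 0, 0, 0, 0], ![0, 7, 8, 0, 0, 9, 0, 0, 0, 0],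
    ![10, 0, 11, 0, 12, 0, 0, 0, 0, 0], ![13, 14, 0, 15, 0, 0, 0, 0, 0, 0]] :
    Fin 4 → Fin 10 → Fin 16) k v

/-- four distinct indices -/
def Dist4 (i j k l : Fin 4) : Prop := i ≠ j ∧ i ≠ k ∧ i ≠ l ∧ j ≠ k ∧ j ≠ l ∧ k ≠ l

instance (i j k l : Fin 4) : Decidable (Dist4 i j k l) := by unfold Dist4; infer_instance

lemma pt_comm : ∀ i j, pt i j = pt j i := by decide

lemma pt_mem : ∀ i j, i ≠ j → pt i j ∈ edgeFun (line i) := by decide

lemma pt_mem' : ∀ i j, i ≠ j → pt j i ∈ edgeFun (line i) := by decide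

lemma pt_notMem : ∀ i j k, i ≠ j → i ≠ k → j ≠ k → pt j k ∉ edgeFun (line i) := by decide

lemma pt_ne : ∀ i j k, i ≠ j → i ≠ k → j ≠ k → pt i j ≠ pt i k := by decide

lemma exists_others : ∀ i : Fin 4, ∃ j k l, Dist4 i j k l := by decide

lemma pairs_eq : ∀ i j k l k' l' : Fin 4, Dist4 i j k l → Dist4 i j k' l' →
    (k' = k ∧ l' = l) ∨ (k' = l ∧ l' = k) := by decide

lemma legs_mem : ∀ k i j, k ≠ i → k ≠ j → i ≠ j →
    hub k ∈ edgeFun (leg k (pt i j)) ∧ pt i j ∈ edgeFun (leg k (pt i j)) := by decide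

lemma legs_disjoint_line : ∀ i j k l, Dist4 i j k l →
    Disjoint (edgeFun (leg j (pt i k))) (edgeFun (line j)) := by decide

lemma legs_disjoint_legs : ∀ i j k l k' l', Dist4 i j k l → Dist4 i j k' l' →
    Disjoint (edgeFun (leg j (pt i k))) (edgeFun (leg i (pt j k'))) := by decide

lemma hub_notMem : ∀ i j, hub j ∉ edgeFun (line i) := by decide

lemma pt_notMem_leg : ∀ i j k l, Dist4 i j k l → pt i l ∉ edgeFun (leg j (pt i k)) := by decide

lemma cycle_cases : ∀ m : Fin 4 → Fin 4, (∀ i, m i ≠ i) →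
    (∃ i j k l, Dist4 i j k l ∧ m i = j ∧ m j = i) ∨
    (∃ i j k l, Dist4 i j k l ∧ m i = j ∧ m j = k ∧ m k = i) ∨
    (∃ i j k l, Dist4 i j k l ∧ m i = j ∧ m j = k ∧ m k = l ∧ m l = i) := by
  decide +kernel

/-! ## Nonexistence -/

section Rep

variable {p : Fin 10 → Plane} {s : Fin 16 → Set Plane}

/-- the properties of a straight-line representation of `theH` -/
structure IsRep (p : Fin 10 → Plane) (s : Fin 16 → Set Plane) : Prop where
  inj : Function.Injective p
  seg : ∀ i, ∃ a b : Plane, a ≠ b ∧ s i = segment ℝ a b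
  meet : ∀ i j, i ≠ j → (s i ∩ s j).Subsingleton ∧ ∀ x ∈ s i ∩ s j, ∃ v, x = p v
  inc : ∀ v i, p v ∈ s i ↔ v ∈ edgeFun i

lemma IsRep.seg_sub (h : IsRep p s) {e : Fin 16} {u v : Fin 10} (hu : u ∈ edgeFun e)
    (hv : v ∈ edgeFun e) : segment ℝ (p u) (p v) ⊆ s e := by
  obtain ⟨a, b, -, hs⟩ := h.seg e
  have hu' := (h.inc u e).2 hu
  have hv' := (h.inc v e).2 hv
  rw [hs] at hu' hv' ⊢
  exact (convex_segment a b).segment_subset hu' hv'

lemma IsRep.disj (h : IsRep p s) {e f : Fin 16} (hef : Disjoint (edgeFun e) (edgeFun f))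
    {u v u' v' : Fin 10} (hu : u ∈ edgeFun e) (hv : v ∈ edgeFun e) (hu' : u' ∈ edgeFun f)
    (hv' : v' ∈ edgeFun f) : Disjoint (segment ℝ (p u) (p v)) (segment ℝ (p u') (p v')) := by
  rw [Set.disjoint_left]
  intro x hx hx'
  have h1 := h.seg_sub hu hv hx
  have h2 := h.seg_sub hu' hv' hx'
  have hne : e ≠ f := by
    rintro rfl
    exact Finset.disjoint_left.1 hef hu hu
  obtain ⟨w, rfl⟩ := (h.meet e f hne).2 x ⟨h1, h2⟩
  exact Finset.disjoint_left.1 hef ((h.inc w e).1 h1) ((h.inc w f).1 h2)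

lemma IsRep.notMem (h : IsRep p s) {e : Fin 16} {u v w : Fin 10} (hu : u ∈ edgeFun e)
    (hv : v ∈ edgeFun e) (hw : w ∉ edgeFun e) : p w ∉ segment ℝ (p u) (p v) := by
  intro hx
  exact hw ((h.inc w e).1 (h.seg_sub hu hv hx))

/-- the middle vertex of a triple -/
lemma IsRep.exists_middle (h : IsRep p s) (i : Fin 4) : ∃ m, m ≠ i ∧ ∀ k l, Dist4 i m k l →
    p (pt i m) ∈ openSegment ℝ (p (pt i k)) (p (pt i l)) := by
  obtain ⟨j, k, l, hd⟩ := exists_others i
  obtain ⟨a, b, -, hs⟩ := h.seg (line i)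
  have hij : i ≠ j := hd.1
  have hik : i ≠ k := hd.2.1
  have hil : i ≠ l := hd.2.2.1
  have hjk : j ≠ k := hd.2.2.2.1
  have hjl : j ≠ l := hd.2.2.2.2.1
  have hkl : k ≠ l := hd.2.2.2.2.2
  have h1 : p (pt i j) ∈ segment ℝ a b := by rw [← hs, h.inc]; exact pt_mem i j hij
  have h2 : p (pt i k) ∈ segment ℝ a b := by rw [← hs, h.inc]; exact pt_mem i k hik
  have h3 : p (pt i l) ∈ segment ℝ a b := by rw [← hs, h.inc]; exact pt_mem i l hil
  have n1 : p (pt i j) ≠ p (pt i k) := fun e => pt_ne i j k hij hik hjk (h.inj e)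
  have n2 : p (pt i j) ≠ p (pt i l) := fun e => pt_ne i j l hij hil hjl (h.inj e)
  have n3 : p (pt i k) ≠ p (pt i l) := fun e => pt_ne i k l hik hil hkl (h.inj e)
  rcases exists_between h1 h2 h3 n1 n2 n3 with hm | hm | hm
  · refine ⟨j, hij.symm, fun k' l' hd' => ?_⟩
    rcases pairs_eq i j k l k' l' hd hd' with ⟨rfl, rfl⟩ | ⟨rfl, rfl⟩
    · exact hm
    · rw [openSegment_symm]; exact hm
  · refine ⟨k, hik.symm, fun k' l' hd' => ?_⟩
    rcases pairs_eq i k j l k' l' ⟨hik, hij, hil, hjk.symm, hkl, hjl⟩ hd' with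
      ⟨rfl, rfl⟩ | ⟨rfl, rfl⟩
    · exact hm
    · rw [openSegment_symm]; exact hm
  · refine ⟨l, hil.symm, fun k' l' hd' => ?_⟩
    rcases pairs_eq i l j k k' l' ⟨hil, hij, hik, hjl.symm, hkl.symm, hjk⟩ hd' with
      ⟨rfl, rfl⟩ | ⟨rfl, rfl⟩
    · exact hm
    · rw [openSegment_symm]; exact hm

/-- The three pairwise common vertices of three triples are not collinear. -/
lemma IsRep.triangle (h : IsRep p s) {i j k l : Fin 4} (hd : Dist4 i j k l) :
    area (p (pt i j)) (p (pt j k)) (p (pt k i)) ≠ 0 := by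
  obtain ⟨hij, hik, hil, hjk, hjl, hkl⟩ := hd
  apply area_ne_zero_of_notMem
  · exact h.notMem (pt_mem' k j hjk.symm) (pt_mem k i hik.symm) (pt_notMem k i j hik.symm
      hjk.symm hij)
  · exact h.notMem (pt_mem i j hij) (pt_mem' i k hik) (pt_notMem i j k hij hik hjk)
  · exact h.notMem (pt_mem' j i hij.symm) (pt_mem j k hjk) (pt_notMem j k i hjk hij.symm
      hik.symm)

/-- The three common vertices of a triple with the other ones are collinear. -/
lemma IsRep.collinear (h : IsRep p s) {i j k l : Fin 4} (hd : Dist4 i j k l) :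
    area (p (pt i l)) (p (pt j l)) (p (pt k l)) = 0 := by
  obtain ⟨a, b, -, hs⟩ := h.seg (line l)
  obtain ⟨hij, hik, hil, hjk, hjl, hkl⟩ := hd
  apply area_eq_zero_of_mem (a := a) (b := b)
  · rw [← hs, h.inc]; exact pt_mem' l i hil.symm
  · rw [← hs, h.inc]; exact pt_mem' l j hjl.symm
  · rw [← hs, h.inc]; exact pt_mem' l k hkl.symm

/-- Two triples cannot have their common vertex as the middle vertex of both. -/
lemma IsRep.no_crossing (h : IsRep p s) {i j k l : Fin 4} (hd : Dist4 i j k l)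
    (h1 : p (pt i j) ∈ openSegment ℝ (p (pt i k)) (p (pt i l)))
    (h2 : p (pt j i) ∈ openSegment ℝ (p (pt j k)) (p (pt j l))) : False := by
  have hd' : Dist4 j i k l := ⟨hd.1.symm, hd.2.2.2.1, hd.2.2.2.2.1, hd.2.1, hd.2.2.1,
    hd.2.2.2.2.2⟩
  have hds : Dist4 i j l k := ⟨hd.1, hd.2.2.1, hd.2.1, hd.2.2.2.2.1, hd.2.2.2.1,
    hd.2.2.2.2.2.symm⟩
  have hds' : Dist4 j i l k := ⟨hd.1.symm, hd.2.2.2.2.1, hd.2.2.2.1, hd.2.2.1, hd.2.1,
    hd.2.2.2.2.2.symm⟩
  have hij : i ≠ j := hd.1
  have hik : i ≠ k := hd.2.1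
  have hil : i ≠ l := hd.2.2.1
  have hjk : j ≠ k := hd.2.2.2.1
  have hjl : j ≠ l := hd.2.2.2.2.1
  have hkl : k ≠ l := hd.2.2.2.2.2
  rw [pt_comm j i] at h2
  -- the four legs
  have a1 := legs_mem j i k hij.symm hjk hik
  have a2 := legs_mem j i l hij.symm hjl hil
  have b1 := legs_mem i j k hij hik hjk
  have b2 := legs_mem i j l hij hil hjl
  have mik := pt_mem i k hik
  have mil := pt_mem i l hil
  have mjk := pt_mem j k hjk
  have mjl := pt_mem j l hjl
  have hP : area (p (hub j)) (p (pt i k)) (p (pt i l)) ≠ 0 := by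
    apply area_ne_zero_of_notMem
    · exact h.notMem mik mil (hub_notMem i j)
    · exact h.notMem a2.1 a2.2 (pt_notMem_leg i j l k hds)
    · exact h.notMem a1.1 a1.2 (pt_notMem_leg i j k l hd)
  have hD : area (p (pt j k)) (p (pt i k)) (p (pt i l)) ≠ 0 := by
    intro h0
    have h0' : area (p (pt i k)) (p (pt i l)) (p (pt j k)) = 0 := by
      rw [← h0]; simp only [area]; ring
    have hne : p (pt i k) ≠ p (pt i l) := fun e => pt_ne i k l hik hil hkl (h.inj e)
    have hnm : p (pt j k) ∉ segment ℝ (p (pt i k)) (p (pt i l)) :=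
      h.notMem mik mil (pt_notMem i j k hij hik hjk)
    have mij' := pt_mem' j i hij.symm
    rcases mem_of_collinear hne h0' h1 hnm with hm | hm
    · exact h.notMem mjk mij' (pt_notMem j i k hij.symm hjk hik) hm
    · exact h.notMem mjk mij' (pt_notMem j i l hij.symm hjl hil) hm
  exact cross_once hP hD h1 h2
    (h.disj (legs_disjoint_line i j k l hd) a1.1 a1.2 mjk mjl)
    (h.disj (legs_disjoint_line i j l k hds) a2.1 a2.2 mjk mjl)
    (h.disj (legs_disjoint_line j i k l hd').symm mik mil b1.1 b1.2)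
    (h.disj (legs_disjoint_line j i l k hds').symm mik mil b2.1 b2.2)
    (h.disj (legs_disjoint_legs i j k l k l hd hd) a1.1 a1.2 b1.1 b1.2)
    (h.disj (legs_disjoint_legs i j k l l k hd hds) a1.1 a1.2 b2.1 b2.2)
    (h.disj (legs_disjoint_legs i j l k k l hds hd) a2.1 a2.2 b1.1 b1.2)
    (h.disj (legs_disjoint_legs i j l k l k hds hds) a2.1 a2.2 b2.1 b2.2)

lemma not_isRep (h : IsRep p s) : False := by
  choose m hm1 hm2 using h.exists_middle
  rcases cycle_cases m hm1 with ⟨i, j, k, l, hd, h1, h2⟩ | ⟨i, j, k, l, hd, h1, h2, h3⟩ |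
    ⟨i, j, k, l, hd, h1, h2, h3, h4⟩
  · have hd' : Dist4 j i k l := ⟨hd.1.symm, hd.2.2.2.1, hd.2.2.2.2.1, hd.2.1, hd.2.2.1,
      hd.2.2.2.2.2⟩
    have e1 := hm2 i k l
    have e2 := hm2 j k l
    rw [h1] at e1
    rw [h2] at e2
    exact h.no_crossing hd (e1 hd) (e2 hd')
  · -- three-cycle: middle of `i` is `ij`, middle of `j` is `jk`, middle of `k` is `ki`
    obtain ⟨hij, hik, hil, hjk, hjl, hkl⟩ := hd
    have e1 := hm2 i k l
    have e2 := hm2 j i l
    have e3 := hm2 k j l
    rw [h1] at e1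
    rw [h2] at e2
    rw [h3] at e3
    have f1 := e1 ⟨hij, hik, hil, hjk, hjl, hkl⟩
    have f2 := e2 ⟨hjk, hij.symm, hjl, hik.symm, hkl, hil⟩
    have f3 := e3 ⟨hik.symm, hjk.symm, hkl, hij, hil, hjl⟩
    rw [pt_comm i k] at f1
    rw [pt_comm j i] at f2
    rw [pt_comm k j] at f3
    exact no_three_cycle (h.triangle ⟨hij, hik, hil, hjk, hjl, hkl⟩)
      (h.collinear ⟨hij, hik, hil, hjk, hjl, hkl⟩) f1 f2 f3
  · -- four-cycle
    obtain ⟨hij, hik, hil, hjk, hjl, hkl⟩ := hd
    have e1 := hm2 i k l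
    have e2 := hm2 j i l
    have e3 := hm2 k j i
    rw [h1] at e1
    rw [h2] at e2
    rw [h3] at e3
    have f1 := e1 ⟨hij, hik, hil, hjk, hjl, hkl⟩
    have f2 := e2 ⟨hjk, hij.symm, hjl, hik.symm, hkl, hil⟩
    have f3 := e3 ⟨hkl, hjk.symm, hik.symm, hjl.symm, hil.symm, hij.symm⟩
    rw [pt_comm i k] at f1
    rw [pt_comm j i] at f2
    rw [pt_comm k j] at f3
    exact no_four_cycle (h.triangle ⟨hij, hik, hil, hjk, hjl, hkl⟩)
      (h.collinear ⟨hij, hik, hil, hjk, hjl, hkl⟩) f1 f2 f3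

end Rep

/-- There is a planar linear hypergraph, with 10 vertices and 16 pairwise distinct edges all of
size two or three, which has no straight-line representation in the plane. -/
theorem result : ∃ H : HGraph (Fin 10) (Fin 16),
    (∀ i, (H.edge i).card = 2 ∨ (H.edge i).card = 3) ∧ Function.Injective H.edge ∧
    H.IsLinear ∧ H.IsPlanar ∧ ¬ H.HasStraightLineRepresentation := by
  refine ⟨theH, ?_, ?_, ?_, theH_planar, ?_⟩
  · change ∀ i, (edgeFun i).card = 2 ∨ (edgeFun i).card = 3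
    decide
  · change Function.Injective edgeFun
    decide
  · change ∀ i j, i ≠ j → ∀ u v, u ∈ edgeFun i → u ∈ edgeFun j → v ∈ edgeFun i →
      v ∈ edgeFun j → u = v
    decide +kernel
  · rintro ⟨p, s, h1, h2, h3, h4⟩
    exact not_isRep (p := p) (s := s) ⟨h1, h2, h3, h4⟩

end Pool.Agent.Results.MP_3387b7_co.Counterexample
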